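import Pool.Agent.ZPK.StmtsR
import Pool.Agent.Helper27_ZPK.LGB

/-! ZPK, row LGL: logarithms of elements of `L` are limits of elements of `L`. -/

set_option autoImplicit false

namespace Pool.Agent.ZPK.H97

open Polynomial Pool.Agent.ZPT Pool.Agent.ZP3 Pool.Agent.ZPK

theorem um_sub {K : Type} [NormedField K] [IsUltrametricDist K] (x y : K) :
    ‖x - y‖ ≤ max ‖x‖ ‖y‖ := by
  have h := IsUltrametricDist.norm_add_le_max x (-y)
  rw [norm_neg, ← sub_eq_add_neg] at h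
  exact h

/-- **LGL** -/
theorem lgl (_urr : ZP3.URRStmt) (lgb : LgbStmt) (unv : UnvStmt) : LglStmt := by
  intro p hp h5 K _ _ _ hE Log hLog L hL
  obtain ⟨hu1, hu2⟩ := unv p hp K hE L hL
  obtain ⟨⟨_, l1⟩, _, _, _, _, l6, _⟩ := lgb p hp h5 K hE Log hLog
  have hp1 : (1 : ℝ) < (p : ℝ) := by exact_mod_cast hp.one_lt
  have hp0 : (0 : ℝ) < (p : ℝ) := by linarith
  have A : ∀ a ∈ L, ‖a‖ = 1 → ∀ ε : ℝ, 0 < ε → ∃ x ∈ L, ‖Log a - x‖ ≤ ε := by
    intro a ha ha1 ε hε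
    obtain ⟨_, F, hF, hFa⟩ := hu1 a ha ha1.le
    have ha0 : a ≠ 0 := by
      rintro rfl
      rw [norm_zero] at ha1
      exact zero_ne_one ha1
    have hpF : 1 < p ^ F := Nat.one_lt_pow (by omega) hp.one_lt
    obtain ⟨n, hn⟩ : ∃ n, p ^ F = n + 1 := ⟨p ^ F - 1, by omega⟩
    have hn0 : n ≠ 0 := by omega
    have hy : ‖a ^ n - 1‖ < 1 := by
      have e : a ^ (p ^ F) - a = a * (a ^ n - 1) := by
        rw [hn, pow_succ]
        ring
      rw [e, norm_mul, ha1, one_mul] at hFa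
      exact hFa.trans_lt (inv_lt_one_of_one_lt₀ hp1)
    have hyL : a ^ n - 1 ∈ L := L.sub_mem (L.pow_mem ha n) L.one_mem
    have hs := (hLog.ser _ hy).tendsto_sum_nat
    have hnK : (n : K) ≠ 0 := Nat.cast_ne_zero.2 hn0
    have hne : 0 < ‖(n : K)‖ := norm_pos_iff.2 hnK
    obtain ⟨m, hm⟩ := ((Metric.tendsto_nhds.1 hs) (ε * ‖(n : K)‖) (mul_pos hε hne)).exists
    have e1 : Log (1 + (a ^ n - 1)) = (n : K) * Log a := by
      have h1 := l1 a (n : ℤ) ha0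
      rw [zpow_natCast, Int.cast_natCast] at h1
      rw [add_sub_cancel, h1]
    refine ⟨(∑ i ∈ Finset.range m, (-1 : K) ^ i * (a ^ n - 1) ^ (i + 1) / ((i : K) + 1)) / n,
      L.div_mem (L.sum_mem fun i _ => ?_) (natCast_mem L n), ?_⟩
    · refine L.div_mem (L.mul_mem (L.pow_mem (L.neg_mem L.one_mem) _) (L.pow_mem hyL _)) ?_
      exact L.add_mem (natCast_mem L i) L.one_mem
    · rw [e1, dist_comm, dist_eq_norm] at hm
      have e2 : ∀ S : K, Log a - S / n = ((n : K) * Log a - S) / n := fun S => by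
        field_simp
      rw [e2, norm_div, div_le_iff₀ hne]
      exact hm.le
  refine ⟨A, ?_⟩
  intro a ha b hb ha1 hb1 e₁ e₂ h1 h2 h3 h4
  by_cases hk : Log a / (e₁ : K) - Log b / (e₂ : K) = 0
  · exact Or.inl hk
  right
  have n1 : ‖(e₁ : K)‖ = 1 := H27.nrm_unit hp K hE e₁ (fun hd => by
    have := Nat.le_of_dvd (by omega) hd
    omega)
  have n2 : ‖(e₂ : K)‖ = 1 := H27.nrm_unit hp K hE e₂ (fun hd => by
    have := Nat.le_of_dvd (by omega) hd
    omega)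
  have hka : ‖Log a / (e₁ : K) - Log b / (e₂ : K)‖ ≤ (p : ℝ)⁻¹ := by
    refine (um_sub _ _).trans (max_le ?_ ?_)
    · rw [norm_div, n1, div_one]
      exact l6 a ⟨hu1 a ha ha1.le, ha1⟩
    · rw [norm_div, n2, div_one]
      exact l6 b ⟨hu1 b hb hb1.le, hb1⟩
  have hkp : 0 < ‖Log a / (e₁ : K) - Log b / (e₂ : K)‖ := norm_pos_iff.2 hk
  obtain ⟨x1, hx1, hx1'⟩ := A a ha ha1 _ (half_pos hkp)
  obtain ⟨x2, hx2, hx2'⟩ := A b hb hb1 _ (half_pos hkp)
  have hxL : x1 / (e₁ : K) - x2 / (e₂ : K) ∈ L :=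
    L.sub_mem (L.div_mem hx1 (natCast_mem L e₁)) (L.div_mem hx2 (natCast_mem L e₂))
  have hd : ‖(Log a / (e₁ : K) - Log b / (e₂ : K)) - (x1 / (e₁ : K) - x2 / (e₂ : K))‖ ≤
      ‖Log a / (e₁ : K) - Log b / (e₂ : K)‖ / 2 := by
    have e : (Log a / (e₁ : K) - Log b / (e₂ : K)) - (x1 / (e₁ : K) - x2 / (e₂ : K)) =
        (Log a - x1) / (e₁ : K) - (Log b - x2) / (e₂ : K) := by ring
    rw [e]
    refine (um_sub _ _).trans (max_le ?_ ?_)
    · rw [norm_div, n1, div_one]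
      exact hx1'
    · rw [norm_div, n2, div_one]
      exact hx2'
  generalize Log a / (e₁ : K) - Log b / (e₂ : K) = κ at *
  generalize x1 / (e₁ : K) - x2 / (e₂ : K) = x at *
  have hx : ‖x‖ = ‖κ‖ := by
    apply le_antisymm
    · have h6 := um_sub κ (κ - x)
      rw [sub_sub_cancel] at h6
      exact h6.trans (max_le (le_refl _) (by linarith))
    · have h6 := um_sub x (x - κ)
      rw [sub_sub_cancel, norm_sub_rev x κ] at h6
      rcases le_max_iff.1 h6 with h | h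
      · exact h
      · linarith
  obtain ⟨k, hkk⟩ := hu2 x hxL (fun h0 => by
    rw [h0, norm_zero] at hx
    linarith)
  rw [← hx, hkk] at hka
  have hk1 : k ≤ -1 := by
    rw [← zpow_neg_one] at hka
    exact (zpow_le_zpow_iff_right₀ hp1).1 hka
  refine ⟨(-k).toNat, by omega, ?_⟩
  rw [← hx, hkk, inv_pow, ← zpow_natCast, ← zpow_neg]
  congr 1
  omega

end Pool.Agent.ZPK.H97
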